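import Mathlib

set_option autoImplicit false
open MeasureTheory Set Filter
open scoped ENNReal Topology

namespace Pool.Agent.Helper67.Bump

/-- Logarithmic factor. -/
noncomputable def Lg (t : ℝ) : ℝ := 1 + Real.log (1 + t)

/-- The Young function `t^2 (1 + log (1 + t))^{3/2}`. -/
noncomputable def Phi (t : ℝ) : ℝ := t ^ 2 * Lg t ^ (3 / 2 : ℝ)

lemma one_le_Lg {t : ℝ} (ht : 0 ≤ t) : 1 ≤ Lg t := by
  unfold Lg
  have : 0 ≤ Real.log (1 + t) := Real.log_nonneg (by linarith)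
  linarith

lemma Lg_mono {s t : ℝ} (hs : 0 ≤ s) (hst : s ≤ t) : Lg s ≤ Lg t := by
  unfold Lg
  have : Real.log (1 + s) ≤ Real.log (1 + t) := Real.log_le_log (by linarith) (by linarith)
  linarith

lemma Lg_rpow_mono {s t r : ℝ} (hr : 0 ≤ r) (hs : 0 ≤ s) (hst : s ≤ t) : Lg s ^ r ≤ Lg t ^ r :=
  Real.rpow_le_rpow (by linarith [one_le_Lg hs]) (Lg_mono hs hst) hr

lemma one_le_Lg_rpow {t r : ℝ} (ht : 0 ≤ t) (hr : 0 ≤ r) : 1 ≤ Lg t ^ r :=
  Real.one_le_rpow (one_le_Lg ht) hr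

lemma Phi_zero : Phi 0 = 0 := by simp [Phi]

lemma Phi_nonneg {t : ℝ} (ht : 0 ≤ t) : 0 ≤ Phi t := by
  unfold Phi
  have := one_le_Lg_rpow (r := 3/2) ht (by norm_num)
  positivity

lemma Phi_mono {s t : ℝ} (hs : 0 ≤ s) (hst : s ≤ t) : Phi s ≤ Phi t := by
  unfold Phi
  have h1 : s ^ 2 ≤ t ^ 2 := by gcongr
  have h2 := Lg_rpow_mono (r := 3/2) (by norm_num) hs hst
  have h3 := one_le_Lg_rpow (r := 3/2) hs (by norm_num)
  gcongr

lemma Phi_monotoneOn : MonotoneOn Phi (Set.Ici 0) := fun _ hs _ _ hst => Phi_mono hs hst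

lemma Phi_div_tendsto : Tendsto (fun t => Phi t / t) atTop atTop := by
  refine tendsto_atTop_mono' _ ?_ tendsto_id
  filter_upwards [eventually_gt_atTop 0] with t ht
  have h3 := one_le_Lg_rpow (r := 3/2) ht.le (by norm_num)
  have : Phi t / t = t * Lg t ^ (3/2 : ℝ) := by
    unfold Phi; field_simp
  rw [this]
  simp only [id]
  nlinarith

lemma Lg_hasDerivAt {t : ℝ} (ht : 0 ≤ t) : HasDerivAt Lg (1 / (1 + t)) t := by
  unfold Lg
  have h1 : HasDerivAt (fun t : ℝ => 1 + t) 1 t := by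
    simpa using (hasDerivAt_id t).const_add 1
  have h2 := h1.log (by linarith)
  simpa using h2.const_add 1

lemma Phi_hasDerivAt {t : ℝ} (ht : 0 ≤ t) :
    HasDerivAt Phi (2 * t * Lg t ^ (3/2 : ℝ) + (t ^ 2 / (1 + t)) * ((3/2) * Lg t ^ (1/2 : ℝ))) t := by
  unfold Phi
  have h1 : HasDerivAt (fun t : ℝ => t ^ 2) (2 * t) t := by
    simpa using hasDerivAt_pow 2 t
  have hpos : 0 < Lg t := by linarith [one_le_Lg ht]
  have h2 : HasDerivAt (fun t : ℝ => Lg t ^ (3/2 : ℝ)) ((1 / (1 + t)) * (3/2) * Lg t ^ ((3/2 : ℝ) - 1)) t :=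
    (Lg_hasDerivAt ht).rpow_const (Or.inl hpos.ne')
  have h3 := h1.mul h2
  have e : ((3:ℝ)/2) - 1 = 1/2 := by norm_num
  rw [e] at h3
  refine h3.congr_deriv ?_
  ring

lemma Phi_continuousOn : ContinuousOn Phi (Set.Ici 0) :=
  fun t ht => (Phi_hasDerivAt ht).continuousAt.continuousWithinAt

lemma Phi_convexOn : ConvexOn ℝ (Set.Ici 0) Phi := by
  apply MonotoneOn.convexOn_of_deriv (convex_Ici 0) Phi_continuousOn
  · intro t ht
    rw [interior_Ici] at ht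
    exact (Phi_hasDerivAt (le_of_lt ht)).differentiableAt.differentiableWithinAt
  · rw [interior_Ici]
    intro s hs t ht hst
    have hs' : 0 ≤ s := le_of_lt hs
    have ht' : 0 ≤ t := le_of_lt ht
    rw [(Phi_hasDerivAt hs').deriv, (Phi_hasDerivAt ht').deriv]
    have h1 := Lg_rpow_mono (r := 3/2) (by norm_num) hs' hst
    have h2 := Lg_rpow_mono (r := 1/2) (by norm_num) hs' hst
    have h3 := one_le_Lg_rpow (r := 3/2) hs' (by norm_num)
    have h4 := one_le_Lg_rpow (r := 1/2) hs' (by norm_num)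
    have h5 : s ^ 2 / (1 + s) ≤ t ^ 2 / (1 + t) := by
      rw [div_le_div_iff₀ (by linarith) (by linarith)]
      nlinarith [mul_nonneg hs' ht', mul_nonneg (mul_nonneg hs' ht') (sub_nonneg.2 hst), mul_nonneg (add_nonneg hs' ht') (sub_nonneg.2 hst)]
    gcongr

/-- Bound for the complementary function. -/
lemma conj_bound {t : ℝ} (ht : 1 ≤ t) (s : ℝ) (hs : 0 ≤ s) :
    t * s - Phi s ≤ t ^ (3/2 : ℝ) + t ^ 2 / (4 * (1 + Real.log t / 2) ^ (3/2 : ℝ)) := by
  have ht0 : 0 ≤ t := by linarith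
  have hlog : 0 ≤ Real.log t := Real.log_nonneg ht
  have hden : 0 < (1 + Real.log t / 2) ^ (3/2 : ℝ) := Real.rpow_pos_of_pos (by positivity) _
  rcases le_total s (Real.sqrt t) with h | h
  · have h1 : t * s ≤ t * Real.sqrt t := by gcongr
    have h2 : t * Real.sqrt t = t ^ (3/2 : ℝ) := by
      rw [Real.sqrt_eq_rpow, show (3/2 : ℝ) = 1 + 1/2 by norm_num, Real.rpow_add (by linarith), Real.rpow_one]
    have h3 := Phi_nonneg hs
    have h4 : 0 ≤ t ^ 2 / (4 * (1 + Real.log t / 2) ^ (3/2 : ℝ)) := by positivity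
    linarith
  · have hsq : 0 ≤ Real.sqrt t := Real.sqrt_nonneg t
    set A := (1 + Real.log t / 2) ^ (3/2 : ℝ) with hA
    have hL : A ≤ Lg s ^ (3/2 : ℝ) := by
      apply Real.rpow_le_rpow (by positivity) _ (by norm_num)
      have h1 : Lg (Real.sqrt t) ≤ Lg s := Lg_mono hsq h
      have h2 : Real.log t / 2 ≤ Real.log (1 + Real.sqrt t) := by
        rw [← Real.log_sqrt ht0]
        apply Real.log_le_log (Real.sqrt_pos.2 (by linarith)) (by linarith)
      unfold Lg at h1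
      unfold Lg
      linarith
    have h5 : t * s - Phi s ≤ t * s - s ^ 2 * A := by
      unfold Phi
      have : s ^ 2 * A ≤ s ^ 2 * Lg s ^ (3/2 : ℝ) := by gcongr
      linarith
    have h6 : t * s - s ^ 2 * A ≤ t ^ 2 / (4 * A) := by
      rw [le_div_iff₀ (by positivity)]
      nlinarith [sq_nonneg (t - 2 * s * A)]
    have h7 : 0 ≤ t ^ (3/2 : ℝ) := Real.rpow_nonneg ht0 _
    linarith

lemma conj_sup_bound {t : ℝ} (ht : 1 ≤ t) :
    (⨆ s : Set.Ici (0:ℝ), (t * (s:ℝ) - Phi s)) ≤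
      t ^ (3/2 : ℝ) + t ^ 2 / (4 * (1 + Real.log t / 2) ^ (3/2 : ℝ)) := by
  apply ciSup_le
  rintro ⟨s, hs⟩
  exact conj_bound ht s hs

/-- Derivative formula used for integrability. -/
noncomputable def G (t : ℝ) : ℝ := - 2 * t ^ (-(1/2) : ℝ) - (1 + Real.log t / 2) ^ (-(1/2) : ℝ)

noncomputable def G' (t : ℝ) : ℝ := t ^ (-(3/2) : ℝ) + (1/4) * (1 + Real.log t / 2) ^ (-(3/2) : ℝ) * t⁻¹

lemma G_hasDerivAt {t : ℝ} (ht : 1 ≤ t) : HasDerivAt G (G' t) t := by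
  have ht0 : 0 < t := by linarith
  have hlog : 0 ≤ Real.log t := Real.log_nonneg ht
  have h1 : HasDerivAt (fun t : ℝ => t ^ (-(1/2) : ℝ)) ((-(1/2) : ℝ) * t ^ ((-(1/2) : ℝ) - 1)) t := 
    Real.hasDerivAt_rpow_const (Or.inl ht0.ne')
  have h2 : HasDerivAt (fun t : ℝ => 1 + Real.log t / 2) (t⁻¹ / 2) t := by
    simpa using ((Real.hasDerivAt_log ht0.ne').div_const 2).const_add 1
  have h3 : HasDerivAt (fun t : ℝ => (1 + Real.log t / 2) ^ (-(1/2) : ℝ)) 
      ((t⁻¹ / 2) * (-(1/2) : ℝ) * (1 + Real.log t / 2) ^ ((-(1/2) : ℝ) - 1)) t :=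
    h2.rpow_const (Or.inl (by positivity))
  have h4 := (h1.const_mul (-2)).sub h3
  unfold G G'
  refine h4.congr_deriv ?_
  have e : (-(1/2) : ℝ) - 1 = -(3/2) := by norm_num
  rw [e]
  ring

lemma G'_nonneg {t : ℝ} (ht : 1 ≤ t) : 0 ≤ G' t := by
  have ht0 : 0 < t := by linarith
  have hlog : 0 ≤ Real.log t := Real.log_nonneg ht
  unfold G'
  positivity

lemma G_tendsto : Tendsto G atTop (𝓝 0) := by
  unfold G
  have h1 : Tendsto (fun t : ℝ => t ^ (-(1/2) : ℝ)) atTop (𝓝 0) :=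
    tendsto_rpow_neg_atTop (by norm_num)
  have h2 : Tendsto (fun t : ℝ => 1 + Real.log t / 2) atTop atTop := by
    apply tendsto_atTop_add_const_left
    exact Real.tendsto_log_atTop.atTop_div_const (by norm_num)
  have h3 := h1.comp h2
  have h4 := (h1.const_mul (-2)).sub h3
  simpa using h4

lemma G'_integrableOn : IntegrableOn G' (Ioi 1) volume := by
  apply integrableOn_Ioi_deriv_of_nonneg (g := G) (l := 0)
  · exact (G_hasDerivAt le_rfl).continuousAt.continuousWithinAt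
  · intro x hx; exact G_hasDerivAt (le_of_lt hx)
  · intro x hx; exact G'_nonneg (le_of_lt hx)
  · exact G_tendsto

lemma conj_lintegral :
    (∫⁻ t in Set.Ioi (1:ℝ),
        ENNReal.ofReal ((⨆ s : Set.Ici (0:ℝ), (t * (s:ℝ) - Phi s)) * t ^ (-2 : ℝ) / t)) < ⊤ := by
  refine lt_of_le_of_lt ?_ G'_integrableOn.lintegral_lt_top
  apply setLIntegral_mono_ae' measurableSet_Ioi
  filter_upwards with t ht
  have ht1 : 1 < t := ht
  have ht0 : 0 < t := by linarith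
  have hlog : 0 ≤ Real.log t := Real.log_nonneg ht1.le
  apply ENNReal.ofReal_le_ofReal
  have h := conj_sup_bound ht1.le
  have h2 : (⨆ s : Set.Ici (0:ℝ), (t * (s:ℝ) - Phi s)) * t ^ (-2 : ℝ) / t ≤ 
    (t ^ (3/2 : ℝ) + t ^ 2 / (4 * (1 + Real.log t / 2) ^ (3/2 : ℝ))) * t ^ (-2 : ℝ) / t := by
    gcongr
  refine h2.trans (le_of_eq ?_)
  unfold G'
  rw [Real.rpow_neg (by positivity : (0:ℝ) ≤ 1 + Real.log t / 2)]
  have e1 : t ^ (-(3/2) : ℝ) = t ^ (3/2 : ℝ) * t ^ (-2 : ℝ) * t⁻¹ := by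
    rw [← Real.rpow_neg_one t, ← Real.rpow_add ht0, ← Real.rpow_add ht0]
    norm_num
  have e2 : t ^ (-2 : ℝ) = (t ^ 2)⁻¹ := by
    rw [Real.rpow_neg ht0.le]
    norm_num
  rw [e1, e2]
  field_simp

end Pool.Agent.Helper67.Bump
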