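import Pool.Agent.Helper67.Bump1

set_option autoImplicit false
open MeasureTheory Set Filter
open scoped ENNReal Topology

namespace Pool.Agent.Helper67.Bump

/-- thickness of the `n`-th rectangle -/
noncomputable def ep (n : ℕ) : ℝ := Real.exp (-(2 * ((n:ℝ) + 1) ^ 4))

/-- line density of the weight on the `n`-th rectangle -/
noncomputable def mm (n : ℕ) : ℝ := 1 / (3 * ((n:ℝ) + 1) ^ 3)

/-- height of the weight on the `n`-th rectangle -/
noncomputable def cc (n : ℕ) : ℝ := mm n / ep n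

lemma ep_pos (n : ℕ) : 0 < ep n := Real.exp_pos _
lemma mm_pos (n : ℕ) : 0 < mm n := by unfold mm; positivity
lemma cc_pos (n : ℕ) : 0 < cc n := div_pos (mm_pos n) (ep_pos n)
lemma ep_le_one (n : ℕ) : ep n ≤ 1 := by
  unfold ep
  rw [Real.exp_le_one_iff]
  have : 0 ≤ 2 * ((n:ℝ) + 1) ^ 4 := by positivity
  linarith
lemma mm_le_one (n : ℕ) : mm n ≤ 1 := by
  unfold mm
  rw [div_le_one (by positivity)]
  have : (1:ℝ) ≤ ((n:ℝ) + 1) ^ 3 := one_le_pow₀ (by have : (0:ℝ) ≤ n := Nat.cast_nonneg n; linarith)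
  linarith
lemma cc_mul_ep (n : ℕ) : cc n * ep n = mm n := by
  unfold cc
  field_simp [(ep_pos n).ne']

/-- the key one-rectangle inequality -/
lemma key_mm (n : ℕ) : mm n ^ 2 * Lg (Real.exp (((n:ℝ) + 1) ^ 4)) ^ (3/2 : ℝ) ≤ 1 := by
  set j : ℝ := (n:ℝ) + 1 with hj
  have hj1 : 1 ≤ j := by have : (0:ℝ) ≤ n := Nat.cast_nonneg n; linarith
  have hj4 : 1 ≤ j ^ 4 := one_le_pow₀ hj1
  have h1 : Lg (Real.exp (j ^ 4)) ≤ 3 * j ^ 4 := by
    unfold Lg
    have h2 : Real.log (1 + Real.exp (j ^ 4)) ≤ Real.log (2 * Real.exp (j^4)) := by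
      apply Real.log_le_log (by positivity)
      have : 1 ≤ Real.exp (j ^ 4) := Real.one_le_exp (by positivity)
      linarith
    rw [Real.log_mul (by norm_num) (Real.exp_pos _).ne', Real.log_exp] at h2
    have h3 : Real.log 2 < 1 := by
      have := Real.log_two_lt_d9
      linarith
    linarith
  have h0 : 0 ≤ Lg (Real.exp (j^4)) := by linarith [one_le_Lg (Real.exp_pos (j^4)).le]
  have h2 : Lg (Real.exp (j ^ 4)) ^ (3/2 : ℝ) ≤ (9 * j ^ 4) ^ (3/2 : ℝ) := by
    apply Real.rpow_le_rpow h0 _ (by norm_num)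
    linarith
  have h3 : (9 * j ^ 4) ^ (3/2 : ℝ) = 27 * j ^ 6 := by
    have : (9 * j ^ 4) = (3 * j ^ 2) ^ (2:ℝ) := by
      rw [Real.rpow_two]; ring
    rw [this, ← Real.rpow_mul (by positivity)]
    norm_num
    ring
  have h4 : Lg (Real.exp (j ^ 4)) ^ (3/2 : ℝ) ≤ (3 * j ^ 4) ^ (3/2 : ℝ) := by
    apply Real.rpow_le_rpow h0 h1 (by norm_num)
  have h5 : (3 * j ^ 4) ^ (3/2 : ℝ) ≤ 9 * j ^ 6 := by
    have e1 : (3 * j ^ 4) ^ (3/2 : ℝ) = 3 ^ (3/2 : ℝ) * j ^ 6 := by
      rw [Real.mul_rpow (by norm_num) (by positivity)]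
      congr 1
      have : j ^ 4 = (j ^ 2) ^ (2:ℝ) := by rw [Real.rpow_two]; ring
      rw [this, ← Real.rpow_mul (by positivity)]
      norm_num
      ring
    rw [e1]
    have e2 : (3:ℝ) ^ (3/2 : ℝ) ≤ 3 ^ (2:ℝ) := Real.rpow_le_rpow_of_exponent_le (by norm_num) (by norm_num)
    have e3 : (3:ℝ) ^ (2:ℝ) = 9 := by norm_num
    rw [e3] at e2
    gcongr
  have hm : mm n = 1 / (3 * j ^ 3) := rfl
  rw [hm]
  calc (1 / (3 * j ^ 3)) ^ 2 * Lg (Real.exp (j ^ 4)) ^ (3/2 : ℝ) 
      ≤ (1 / (3 * j ^ 3)) ^ 2 * (9 * j ^ 6) := by gcongr; exact h4.trans h5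
    _ = 1 := by field_simp; ring

/-- `Phi (m √X) ≤ X` for `0 ≤ X ≤ 1/ε`. -/
lemma key_Phi (n : ℕ) (X : ℝ) (hX : 0 ≤ X) (hX2 : X ≤ 1 / ep n) : Phi (mm n * Real.sqrt X) ≤ X := by
  have hs : 0 ≤ mm n * Real.sqrt X := mul_nonneg (mm_pos n).le (Real.sqrt_nonneg _)
  have h1 : mm n * Real.sqrt X ≤ Real.exp (((n:ℝ) + 1) ^ 4) := by
    have h2 : Real.sqrt X ≤ Real.exp (((n:ℝ) + 1) ^ 4) := by
      rw [Real.sqrt_le_left (Real.exp_pos _).le]
      refine hX2.trans (le_of_eq ?_)
      unfold ep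
      rw [← Real.exp_nat_mul, one_div, ← Real.exp_neg]
      congr 1
      push_cast; ring
    calc mm n * Real.sqrt X ≤ 1 * Real.sqrt X := by gcongr; exact mm_le_one n
      _ = Real.sqrt X := one_mul _
      _ ≤ _ := h2
  unfold Phi
  have h3 := Lg_rpow_mono (r := 3/2) (by norm_num) hs h1
  have h4 : (mm n * Real.sqrt X) ^ 2 = mm n ^ 2 * X := by rw [mul_pow, Real.sq_sqrt hX]
  rw [h4]
  calc mm n ^ 2 * X * Lg (mm n * Real.sqrt X) ^ (3/2 : ℝ) 
      ≤ mm n ^ 2 * X * Lg (Real.exp (((n:ℝ) + 1) ^ 4)) ^ (3/2 : ℝ) := by gcongr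
    _ = (mm n ^ 2 * Lg (Real.exp (((n:ℝ) + 1) ^ 4)) ^ (3/2 : ℝ)) * X := by ring
    _ ≤ 1 * X := by gcongr; exact key_mm n
    _ = X := one_mul _

/-- One-rectangle bump inequality. -/
lemma one_rect (n : ℕ) (a l : ℝ) (ha : 0 ≤ a) (ha1 : a ≤ ep n) (ha2 : a ≤ l * ep n) :
    Phi (Real.sqrt (cc n) * Real.sqrt (cc n * a)) * a ≤ l ^ 2 := by
  have he := ep_pos n
  have h1 : Real.sqrt (cc n) * Real.sqrt (cc n * a) = mm n * Real.sqrt (a / ep n ^ 2) := by
    rw [Real.sqrt_mul (cc_pos n).le, ← mul_assoc, Real.mul_self_sqrt (cc_pos n).le,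
      Real.sqrt_div ha, Real.sqrt_sq he.le]
    unfold cc
    ring
  have h2 : Phi (mm n * Real.sqrt (a / ep n ^ 2)) ≤ a / ep n ^ 2 := by
    apply key_Phi n _ (by positivity)
    rw [div_le_div_iff₀ (by positivity) he]
    nlinarith
  rw [h1]
  calc Phi (mm n * Real.sqrt (a / ep n ^ 2)) * a ≤ (a / ep n ^ 2) * a := by gcongr
    _ = (a / ep n) ^ 2 := by field_simp
    _ ≤ l ^ 2 := by
      have : a / ep n ≤ l := by rw [div_le_iff₀ he]; exact ha2
      gcongr

/-- Auxiliary size. -/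
noncomputable def BB (n : ℕ) : ℝ :=
  ∑ k ∈ Finset.range (n + 1), Phi (Real.sqrt (cc k) * Real.sqrt ((n:ℝ) + 1)) * ep k

lemma BB_nonneg (n : ℕ) : 0 ≤ BB n := by
  unfold BB
  apply Finset.sum_nonneg
  intro k _
  apply mul_nonneg _ (ep_pos k).le
  apply Phi_nonneg
  positivity

/-- Positions of the rectangles. -/
noncomputable def XX : ℕ → ℝ
  | 0 => 0
  | (n + 1) => XX n + (2 + Real.sqrt (BB (n + 1)))

lemma XX_step (n : ℕ) : XX (n + 1) = XX n + (2 + Real.sqrt (BB (n + 1))) := rfl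

lemma XX_mono : Monotone XX := by
  apply monotone_nat_of_le_succ
  intro n
  rw [XX_step]
  have := Real.sqrt_nonneg (BB (n+1))
  linarith

lemma XX_gap {k n : ℕ} (h : k < n) : XX k + (2 + Real.sqrt (BB n)) ≤ XX n := by
  obtain ⟨m, rfl⟩ : ∃ m, n = m + 1 := ⟨n - 1, by omega⟩
  rw [XX_step]
  have := XX_mono (Nat.lt_succ_iff.1 h)
  linarith

lemma XX_ge (n : ℕ) : 2 * (n:ℝ) ≤ XX n := by
  induction n with
  | zero => simp [XX]
  | succ n ih =>
    rw [XX_step]
    have := Real.sqrt_nonneg (BB (n+1))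
    push_cast
    linarith

/-- sides of the rectangles -/
noncomputable def JJ (n : ℕ) : Fin 2 → Set ℝ := ![Icc (XX n) (XX n + 1), Icc 0 (ep n)]

/-- the rectangles -/
def RR (n : ℕ) : Set (Fin 2 → ℝ) := Set.univ.pi (JJ n)

lemma mem_RR {n : ℕ} {x : Fin 2 → ℝ} : x ∈ RR n ↔ x 0 ∈ Icc (XX n) (XX n + 1) ∧ x 1 ∈ Icc 0 (ep n) := by
  simp [RR, JJ, Set.mem_pi, Fin.forall_fin_two]

lemma JJ_measurable (n : ℕ) (i : Fin 2) : MeasurableSet (JJ n i) := by
  fin_cases i <;> simp [JJ, measurableSet_Icc]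

lemma RR_measurable (n : ℕ) : MeasurableSet (RR n) :=
  MeasurableSet.univ_pi (JJ_measurable n)

lemma RR_unique {m n : ℕ} {x : Fin 2 → ℝ} (hm : x ∈ RR m) (hn : x ∈ RR n) : m = n := by
  rw [mem_RR] at hm hn
  by_contra hne
  rcases lt_or_gt_of_ne hne with h | h
  · have := XX_gap h
    have h2 := Real.sqrt_nonneg (BB n)
    have := hm.1.2
    have := hn.1.1
    linarith
  · have := XX_gap h
    have h2 := Real.sqrt_nonneg (BB m)
    have := hn.1.2
    have := hm.1.1
    linarith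

lemma RR_volume (n : ℕ) : volume (RR n) = ENNReal.ofReal (ep n) := by
  unfold RR
  rw [volume_pi_pi, Fin.prod_univ_two]
  simp [JJ]

/-- the weight -/
noncomputable def ww (x : Fin 2 → ℝ) : ℝ := ∑' n, (RR n).indicator (fun _ => cc n) x

lemma ww_of_mem {n : ℕ} {x : Fin 2 → ℝ} (hx : x ∈ RR n) : ww x = cc n := by
  unfold ww
  rw [tsum_eq_single n]
  · simp [hx]
  · intro m hm
    have : x ∉ RR m := fun h => hm (RR_unique h hx)
    simp [this]

lemma ww_of_not_mem {x : Fin 2 → ℝ} (hx : ∀ n, x ∉ RR n) : ww x = 0 := by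
  unfold ww
  simp [hx]

lemma ww_nonneg (x : Fin 2 → ℝ) : 0 ≤ ww x := by
  by_cases h : ∃ n, x ∈ RR n
  · obtain ⟨n, hn⟩ := h
    rw [ww_of_mem hn]; exact (cc_pos n).le
  · push Not at h
    rw [ww_of_not_mem h]

lemma comp_ww (F : ℝ → ℝ≥0∞) (hF : F 0 = 0) (x : Fin 2 → ℝ) :
    F (ww x) = ∑' n, (RR n).indicator (fun _ => F (cc n)) x := by
  by_cases h : ∃ n, x ∈ RR n
  · obtain ⟨n, hn⟩ := h
    rw [ww_of_mem hn, tsum_eq_single n]
    · simp [hn]
    · intro m hm
      have : x ∉ RR m := fun h => hm (RR_unique h hn)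
      simp [this]
  · push Not at h
    rw [ww_of_not_mem h, hF]
    simp [h]

lemma lintegral_comp_ww (F : ℝ → ℝ≥0∞) (hF : F 0 = 0) (Q : Set (Fin 2 → ℝ)) :
    ∫⁻ x in Q, F (ww x) = ∑' n, F (cc n) * volume (Q ∩ RR n) := by
  simp_rw [comp_ww F hF]
  rw [lintegral_tsum]
  · congr 1
    ext n
    rw [lintegral_indicator_const (RR_measurable n), Measure.restrict_apply (RR_measurable n), inter_comm]
  · intro n
    exact (measurable_const.indicator (RR_measurable n)).aemeasurable

lemma ww_measurable : Measurable ww := by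
  have h : ww = fun x => (∑' n, (RR n).indicator (fun _ => ENNReal.ofReal (cc n)) x).toReal := by
    ext x
    rw [← comp_ww (fun y => ENNReal.ofReal y) (by simp), ENNReal.toReal_ofReal (ww_nonneg x)]
  rw [h]
  apply Measurable.ennreal_toReal
  apply Measurable.tsum
  intro n
  exact measurable_const.indicator (RR_measurable n)

/-- A cube. -/
def Cube (a : Fin 2 → ℝ) (l : ℝ) : Set (Fin 2 → ℝ) := Set.univ.pi (fun i => Set.Ico (a i) (a i + l))

lemma Cube_volume (a : Fin 2 → ℝ) (l : ℝ) (hl : 0 < l) : volume (Cube a l) = ENNReal.ofReal (l ^ 2) := by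
  unfold Cube
  rw [volume_pi_pi, Fin.prod_univ_two]
  simp [← ENNReal.ofReal_mul hl.le, sq]

lemma inter_volume_le (a : Fin 2 → ℝ) (l : ℝ) (hl : 0 < l) (n : ℕ) :
    volume (Cube a l ∩ RR n) ≤ ENNReal.ofReal (l * ep n) := by
  unfold Cube RR
  rw [← Set.pi_inter_distrib, volume_pi_pi, Fin.prod_univ_two, ENNReal.ofReal_mul hl.le]
  gcongr
  · calc volume (Ico (a 0) (a 0 + l) ∩ JJ n 0) ≤ volume (Ico (a 0) (a 0 + l)) := measure_mono inter_subset_left
      _ = ENNReal.ofReal l := by simp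
  · calc volume (Ico (a 1) (a 1 + l) ∩ JJ n 1) ≤ volume (JJ n 1) := measure_mono inter_subset_right
      _ = ENNReal.ofReal (ep n) := by simp [JJ]

lemma inter_volume_le' (a : Fin 2 → ℝ) (l : ℝ) (n : ℕ) :
    volume (Cube a l ∩ RR n) ≤ ENNReal.ofReal (ep n) := by
  rw [← RR_volume n]
  exact measure_mono inter_subset_right

/-- integrand of the Luxemburg functional -/
noncomputable def FF (l : ℝ) (y : ℝ) : ℝ≥0∞ := ENNReal.ofReal (Phi (y ^ (1/2 : ℝ) / l))

lemma FF_zero (l : ℝ) : FF l 0 = 0 := by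
  unfold FF
  rw [Real.zero_rpow (by norm_num), zero_div, Phi_zero, ENNReal.ofReal_zero]

/-- Main estimate: for each cube there is an admissible `l`. -/
lemma exists_l (a : Fin 2 → ℝ) (s : ℝ) (hs : 0 < s) :
    ∃ l : ℝ, 0 < l ∧ ∫⁻ x in Cube a s, FF l (ww x) ≤ volume (Cube a s) ∧
      ENNReal.ofReal l * (∫⁻ x in Cube a s, ENNReal.ofReal (ww x)) ^ (1/2 : ℝ) ≤ 1 := by
  rw [Cube_volume a s hs]
  have hU := lintegral_comp_ww (fun y => ENNReal.ofReal y) (by simp) (Cube a s)
  rw [hU]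
  have hFl : ∀ l : ℝ, ∫⁻ x in Cube a s, FF l (ww x) = ∑' n, FF l (cc n) * volume (Cube a s ∩ RR n) :=
    fun l => lintegral_comp_ww (FF l) (FF_zero l) (Cube a s)
  simp_rw [hFl]
  by_cases hne : ∃ n, (Cube a s ∩ RR n).Nonempty
  · -- choose the maximal index
    let S : Set ℕ := {n | (Cube a s ∩ RR n).Nonempty}
    have hSne : S.Nonempty := hne
    have hSb : BddAbove S := by
      refine ⟨⌈a 0 + s⌉₊, ?_⟩
      rintro n ⟨x, hx1, hx2⟩
      have h1 : x 0 < a 0 + s := (hx1 0 (mem_univ _)).2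
      have h2 : XX n ≤ x 0 := (mem_RR.1 hx2).1.1
      have h3 := XX_ge n
      have h4 : (0:ℝ) ≤ n := Nat.cast_nonneg n
      have h5 : (n:ℝ) ≤ ⌈a 0 + s⌉₊ := by
        have := Nat.le_ceil (a 0 + s)
        linarith
      exact_mod_cast h5
    set N := sSup S with hN
    have hNS : N ∈ S := Nat.sSup_mem hSne hSb
    have hmax : ∀ n, N < n → volume (Cube a s ∩ RR n) = 0 := by
      intro n hn
      have : ¬ (Cube a s ∩ RR n).Nonempty := by
        intro h
        exact absurd (le_csSup hSb (show n ∈ S from h)) (not_le.2 hn)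
      rw [not_nonempty_iff_eq_empty.1 this, measure_empty]
    by_cases hk : ∃ k, k < N ∧ (Cube a s ∩ RR k).Nonempty
    · -- several rectangles: the cube is huge
      obtain ⟨k, hkN, y, hy1, hy2⟩ := hk
      obtain ⟨x, hx1, hx2⟩ := hNS
      have hside : Real.sqrt (BB N) ≤ s := by
        have h1 : x 0 < a 0 + s := (hx1 0 (mem_univ _)).2
        have h2 : a 0 ≤ y 0 := (hy1 0 (mem_univ _)).1
        have h3 := XX_gap hkN
        have h4 : XX N ≤ x 0 := (mem_RR.1 hx2).1.1
        have h5 : y 0 ≤ XX k + 1 := (mem_RR.1 hy2).1.2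
        linarith
      have hBs : BB N ≤ s ^ 2 := by
        rw [← Real.sq_sqrt (BB_nonneg N)]
        gcongr
      have hN1 : (0:ℝ) < (N:ℝ) + 1 := by positivity
      refine ⟨1 / Real.sqrt ((N:ℝ) + 1), by positivity, ?_, ?_⟩
      · have hsum : ∑' n, FF (1 / Real.sqrt ((N:ℝ) + 1)) (cc n) * volume (Cube a s ∩ RR n) =
            ∑ n ∈ Finset.range (N + 1), FF (1 / Real.sqrt ((N:ℝ) + 1)) (cc n) * volume (Cube a s ∩ RR n) := by
          apply tsum_eq_sum
          intro n hn
          rw [hmax n (by simpa using hn), mul_zero]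
        rw [hsum]
        refine le_trans ?_ (ENNReal.ofReal_le_ofReal hBs)
        unfold BB
        rw [ENNReal.ofReal_sum_of_nonneg]
        · apply Finset.sum_le_sum
          intro n _
          rw [ENNReal.ofReal_mul (Phi_nonneg (by positivity))]
          gcongr
          · unfold FF
            rw [← Real.sqrt_eq_rpow]
            apply le_of_eq
            congr 2
            field_simp
          · exact inter_volume_le' a s n
        · intro n _
          exact mul_nonneg (Phi_nonneg (by positivity)) (ep_pos n).le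
      · have hsum : ∑' n, ENNReal.ofReal (cc n) * volume (Cube a s ∩ RR n) ≤ ENNReal.ofReal ((N:ℝ) + 1) := by
          rw [tsum_eq_sum (s := Finset.range (N + 1))]
          · calc ∑ n ∈ Finset.range (N + 1), ENNReal.ofReal (cc n) * volume (Cube a s ∩ RR n)
                ≤ ∑ n ∈ Finset.range (N + 1), (1 : ℝ≥0∞) := by
                  apply Finset.sum_le_sum
                  intro n _
                  calc ENNReal.ofReal (cc n) * volume (Cube a s ∩ RR n) 
                      ≤ ENNReal.ofReal (cc n) * ENNReal.ofReal (ep n) := by 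
                        gcongr; exact inter_volume_le' a s n
                    _ = ENNReal.ofReal (mm n) := by rw [← ENNReal.ofReal_mul (cc_pos n).le, cc_mul_ep]
                    _ ≤ ENNReal.ofReal 1 := ENNReal.ofReal_le_ofReal (mm_le_one n)
                    _ = 1 := ENNReal.ofReal_one
              _ = ENNReal.ofReal ((N:ℝ) + 1) := by
                  simp
                  rw [ENNReal.ofReal_add (by positivity) (by norm_num)]
                  simp
          · intro n hn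
            rw [hmax n (by simpa using hn), mul_zero]
        calc ENNReal.ofReal (1 / Real.sqrt ((N:ℝ) + 1)) * 
            (∑' n, ENNReal.ofReal (cc n) * volume (Cube a s ∩ RR n)) ^ (1/2 : ℝ)
            ≤ ENNReal.ofReal (1 / Real.sqrt ((N:ℝ) + 1)) * (ENNReal.ofReal ((N:ℝ) + 1)) ^ (1/2 : ℝ) := by
              gcongr
          _ = 1 := by
              rw [ENNReal.ofReal_rpow_of_nonneg hN1.le (by norm_num), ← Real.sqrt_eq_rpow,
                ← ENNReal.ofReal_mul (by positivity)]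
              rw [one_div, inv_mul_cancel₀ (by positivity), ENNReal.ofReal_one]
    · -- a single rectangle
      push Not at hk
      have hzero : ∀ n, n ≠ N → volume (Cube a s ∩ RR n) = 0 := by
        intro n hn
        rcases lt_or_gt_of_ne hn with h | h
        · have := hk n h
          rw [this, measure_empty]
        · exact hmax n h
      have hsum : ∀ G : ℕ → ℝ≥0∞, ∑' n, G n * volume (Cube a s ∩ RR n) = G N * volume (Cube a s ∩ RR N) := by
        intro G
        apply tsum_eq_single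
        intro n hn
        rw [hzero n hn, mul_zero]
      have hfin : volume (Cube a s ∩ RR N) ≠ ⊤ := 
        ne_top_of_le_ne_top ENNReal.ofReal_ne_top (inter_volume_le' a s N)
      set b : ℝ := (volume (Cube a s ∩ RR N)).toReal with hb
      have hvol : volume (Cube a s ∩ RR N) = ENNReal.ofReal b := (ENNReal.ofReal_toReal hfin).symm
      have hb0 : 0 ≤ b := ENNReal.toReal_nonneg
      have hb1 : b ≤ ep N := ENNReal.toReal_le_of_le_ofReal (ep_pos N).le (inter_volume_le' a s N)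
      have hb2 : b ≤ s * ep N := ENNReal.toReal_le_of_le_ofReal (by have := ep_pos N; positivity) (inter_volume_le a s hs N)
      rcases eq_or_lt_of_le hb0 with hb3 | hb3
      · refine ⟨1, one_pos, ?_, ?_⟩
        · rw [hsum (fun n => FF 1 (cc n)), hvol, ← hb3]; simp
        · rw [hsum (fun n => ENNReal.ofReal (cc n)), hvol, ← hb3]; simp
      · have hcb : 0 < cc N * b := mul_pos (cc_pos N) hb3
        refine ⟨1 / Real.sqrt (cc N * b), by positivity, ?_, ?_⟩
        · rw [hsum (fun n => FF (1 / Real.sqrt (cc N * b)) (cc n)), hvol]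
          have h1 := one_rect N b s hb0 hb1 hb2
          unfold FF
          rw [← ENNReal.ofReal_mul (Phi_nonneg (by have := cc_pos N; positivity))]
          apply ENNReal.ofReal_le_ofReal
          rw [← Real.sqrt_eq_rpow]
          refine le_trans (le_of_eq ?_) h1
          congr 2
          field_simp
        · rw [hsum (fun n => ENNReal.ofReal (cc n)), hvol, ← ENNReal.ofReal_mul (cc_pos N).le,
            ENNReal.ofReal_rpow_of_nonneg hcb.le (by norm_num), ← Real.sqrt_eq_rpow, 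
            ← ENNReal.ofReal_mul (by positivity), one_div, inv_mul_cancel₀ (by positivity), ENNReal.ofReal_one]
  · push Not at hne
    have hz : ∀ n, volume (Cube a s ∩ RR n) = 0 := by
      intro n
      have := hne n
      rw [this, measure_empty]
    refine ⟨1, one_pos, ?_, ?_⟩
    · simp [hz]
    · simp [hz]

end Pool.Agent.Helper67.Bump
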