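import Pool.Agent.Helper67.Bump2

set_option autoImplicit false
open MeasureTheory Set Filter
open scoped ENNReal Topology

namespace Pool.Agent.Helper67.Bump

lemma lintegral_Cube_lt_top (a : Fin 2 → ℝ) (s : ℝ) (hs : 0 < s) :
    ∫⁻ x in Cube a s, ENNReal.ofReal (ww x) < ⊤ := by
  obtain ⟨l, hl, _, h⟩ := exists_l a s hs
  by_contra hcon
  rw [not_lt, top_le_iff] at hcon
  rw [hcon, ENNReal.top_rpow_of_pos (by norm_num), ENNReal.mul_top (by simpa using hl)] at h
  exact absurd h (by simp)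

lemma ww_locallyIntegrable : LocallyIntegrable ww volume := by
  intro x
  refine ⟨Cube (fun i => x i - 1) 2, ?_, ?_⟩
  · unfold Cube
    apply set_pi_mem_nhds finite_univ
    intro i _
    apply Ico_mem_nhds <;> linarith
  · refine ⟨ww_measurable.aestronglyMeasurable, ?_⟩
    rw [hasFiniteIntegral_iff_ofReal (Eventually.of_forall ww_nonneg)]
    exact lintegral_Cube_lt_top _ _ (by norm_num)

lemma lintegral_fin_two_prod (h1 h2 : ℝ → ℝ≥0∞) (hm1 : Measurable h1) (hm2 : Measurable h2) :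
    ∫⁻ y : Fin 2 → ℝ, h1 (y 0) * h2 (y 1) = (∫⁻ t, h1 t) * ∫⁻ t, h2 t := by
  have h := (volume_preserving_finTwoArrow ℝ).lintegral_comp 
    (f := fun z : ℝ × ℝ => h1 z.1 * h2 z.2) (by fun_prop)
  simp only [MeasurableEquiv.finTwoArrow_apply] at h
  rw [h, Measure.volume_eq_prod, lintegral_prod_mul hm1.aemeasurable hm2.aemeasurable]

lemma right_integral (x0 e : ℝ) (he : 0 < e) :
    ENNReal.ofReal (Real.log ((1/2 + e) / e)) ≤ 
      ∫⁻ t, (Ioc x0 (x0 + 1/2)).indicator (fun t => ENNReal.ofReal (1 / (|x0 - t| + e))) t := by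
  rw [lintegral_indicator measurableSet_Ioc]
  have h1 : ∫⁻ t in Ioc x0 (x0 + 1/2), ENNReal.ofReal (1 / (|x0 - t| + e)) =
      ∫⁻ t in Ioc x0 (x0 + 1/2), ENNReal.ofReal ((t + (e - x0))⁻¹) := by
    apply setLIntegral_congr_fun measurableSet_Ioc
    intro t ht
    simp only
    rw [abs_sub_comm, abs_of_nonneg (by linarith [ht.1]), one_div]
    congr 2
    ring
  rw [h1]
  have hint : IntegrableOn (fun t => (t + (e - x0))⁻¹) (Ioc x0 (x0 + 1/2)) volume := by
    apply IntegrableOn.mono_set _ Ioc_subset_Icc_self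
    apply ContinuousOn.integrableOn_Icc
    apply ContinuousOn.inv₀ (by fun_prop)
    intro t ht
    have : 0 < t + (e - x0) := by linarith [ht.1]
    exact this.ne'
  rw [← ofReal_integral_eq_lintegral_ofReal hint]
  · apply le_of_eq
    congr 1
    rw [← intervalIntegral.integral_of_le (by linarith), 
      intervalIntegral.integral_comp_add_right (fun t => t⁻¹), integral_inv_of_pos (by linarith) (by linarith)]
    congr 2 <;> ring
  · filter_upwards [ae_restrict_mem measurableSet_Ioc] with t ht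
    have : 0 < t + (e - x0) := by linarith [ht.1]
    exact (inv_pos.2 this).le

lemma left_integral (x0 e : ℝ) (he : 0 < e) :
    ENNReal.ofReal (Real.log ((1/2 + e) / e)) ≤ 
      ∫⁻ t, (Ico (x0 - 1/2) x0).indicator (fun t => ENNReal.ofReal (1 / (|x0 - t| + e))) t := by
  rw [lintegral_indicator measurableSet_Ico]
  have h1 : ∫⁻ t in Ico (x0 - 1/2) x0, ENNReal.ofReal (1 / (|x0 - t| + e)) =
      ∫⁻ t in Ioc (x0 - 1/2) x0, ENNReal.ofReal (((e + x0) - t)⁻¹) := by
    rw [setLIntegral_congr (Ico_ae_eq_Ioc)]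
    apply setLIntegral_congr_fun measurableSet_Ioc
    intro t ht
    simp only
    rw [abs_of_nonneg (by linarith [ht.2]), one_div]
    congr 2
    ring
  rw [h1]
  have hint : IntegrableOn (fun t => ((e + x0) - t)⁻¹) (Ioc (x0 - 1/2) x0) volume := by
    apply IntegrableOn.mono_set _ Ioc_subset_Icc_self
    apply ContinuousOn.integrableOn_Icc
    apply ContinuousOn.inv₀ (by fun_prop)
    intro t ht
    have : 0 < (e + x0) - t := by linarith [ht.2]
    exact this.ne'
  rw [← ofReal_integral_eq_lintegral_ofReal hint]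
  · apply le_of_eq
    congr 1
    rw [← intervalIntegral.integral_of_le (by linarith), 
      intervalIntegral.integral_comp_sub_left (fun t => t⁻¹), integral_inv_of_pos (by linarith) (by linarith)]
    congr 2 <;> ring
  · filter_upwards [ae_restrict_mem measurableSet_Ioc] with t ht
    have : 0 < (e + x0) - t := by linarith [ht.2]
    exact (inv_pos.2 this).le

/-- Lower bound for the potential of the `n`-th rectangle on itself. -/
lemma potential_lower (n : ℕ) (x : Fin 2 → ℝ) (hx : x ∈ RR n) :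
    ENNReal.ofReal (mm n * Real.log ((1/2 + ep n) / ep n)) ≤ 
      ∫⁻ y, (RR n).indicator (fun _ => (1:ℝ≥0∞)) y * ENNReal.ofReal (ww y) *
        ENNReal.ofReal (Real.sqrt (∑ i, (x i - y i) ^ 2) ^ ((1:ℝ) - ((2:ℕ):ℝ))) := by
  have he := ep_pos n
  rw [mem_RR] at hx
  -- choose the side
  obtain ⟨I, hIm, hI1, hI2, hI3⟩ : ∃ I : Set ℝ, MeasurableSet I ∧ (∀ t ∈ I, t ∈ Icc (XX n) (XX n + 1)) ∧
      (∀ t ∈ I, t ≠ x 0) ∧ ENNReal.ofReal (Real.log ((1/2 + ep n) / ep n)) ≤ 
      ∫⁻ t, I.indicator (fun t => ENNReal.ofReal (1 / (|x 0 - t| + ep n))) t := by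
    rcases le_total (x 0) (XX n + 1/2) with h | h
    · refine ⟨Ioc (x 0) (x 0 + 1/2), measurableSet_Ioc, ?_, ?_, right_integral _ _ he⟩
      · intro t ht
        exact ⟨by linarith [hx.1.1, ht.1], by linarith [ht.2]⟩
      · intro t ht; exact ht.1.ne'
    · refine ⟨Ico (x 0 - 1/2) (x 0), measurableSet_Ico, ?_, ?_, left_integral _ _ he⟩
      · intro t ht
        exact ⟨by linarith [ht.1], by linarith [ht.2, hx.1.2]⟩
      · intro t ht; exact ht.2.ne
  have hprod := lintegral_fin_two_prod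
    (fun t => ENNReal.ofReal (cc n) * I.indicator (fun t => ENNReal.ofReal (1 / (|x 0 - t| + ep n))) t)
    ((Icc 0 (ep n)).indicator (fun _ => 1)) 
    (by
      apply Measurable.const_mul
      apply Measurable.indicator _ hIm
      fun_prop)
    (measurable_const.indicator measurableSet_Icc)
  have hval : ENNReal.ofReal (mm n * Real.log ((1/2 + ep n) / ep n)) ≤ 
      (∫⁻ t, ENNReal.ofReal (cc n) * I.indicator (fun t => ENNReal.ofReal (1 / (|x 0 - t| + ep n))) t) *
      ∫⁻ t, (Icc 0 (ep n)).indicator (fun _ => (1:ℝ≥0∞)) t := by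
    rw [lintegral_const_mul' _ _ ENNReal.ofReal_ne_top, lintegral_indicator_const measurableSet_Icc, Real.volume_Icc, one_mul, sub_zero]
    calc ENNReal.ofReal (mm n * Real.log ((1/2 + ep n) / ep n)) 
        = ENNReal.ofReal (cc n) * ENNReal.ofReal (Real.log ((1/2 + ep n) / ep n)) * ENNReal.ofReal (ep n) := by
          rw [← ENNReal.ofReal_mul (cc_pos n).le, ← ENNReal.ofReal_mul' he.le, ← cc_mul_ep]
          congr 1; ring
      _ ≤ _ := by gcongr
  refine hval.trans ?_
  rw [← hprod]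
  apply lintegral_mono
  intro y
  simp only
  by_cases hy0 : y 0 ∈ I
  · by_cases hy1 : y 1 ∈ Icc 0 (ep n)
    · have hy : y ∈ RR n := mem_RR.2 ⟨hI1 _ hy0, hy1⟩
      rw [ww_of_mem hy]
      simp only [hy0, hy1, hy, indicator_of_mem, mul_one, one_mul]
      gcongr
      have hd : 0 < Real.sqrt (∑ i, (x i - y i) ^ 2) := by
        apply Real.sqrt_pos.2
        rw [Fin.sum_univ_two]
        have h1 : x 0 - y 0 ≠ 0 := sub_ne_zero.2 (Ne.symm (hI2 _ hy0))
        have h2 : 0 < (x 0 - y 0) ^ 2 := by positivity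
        nlinarith [sq_nonneg (x 1 - y 1)]
      have e1 : (1:ℝ) - ((2:ℕ):ℝ) = -1 := by norm_num
      rw [e1, Real.rpow_neg_one, one_div]
      apply inv_anti₀ hd
      apply Real.sqrt_le_iff.2
      have hab : |x 1 - y 1| ≤ ep n := by
        rw [abs_le]
        exact ⟨by linarith [hx.2.1, hy1.2], by linarith [hx.2.2, hy1.1]⟩
      refine ⟨by positivity, ?_⟩
      rw [Fin.sum_univ_two, ← sq_abs (x 0 - y 0), ← sq_abs (x 1 - y 1)]
      nlinarith [abs_nonneg (x 0 - y 0), abs_nonneg (x 1 - y 1)]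
    · simp [hy1]
  · simp [hy0]

lemma mm_log_lower (n : ℕ) : ((n:ℝ) + 1) / 3 ≤ mm n * Real.log ((1/2 + ep n) / ep n) := by
  have he := ep_pos n
  set j : ℝ := (n:ℝ) + 1 with hj
  have hj1 : 1 ≤ j := by have : (0:ℝ) ≤ n := Nat.cast_nonneg n; linarith
  have hj4 : 1 ≤ j ^ 4 := one_le_pow₀ hj1
  have h1 : j ^ 4 ≤ Real.log ((1/2 + ep n) / ep n) := by
    rw [Real.le_log_iff_exp_le (by positivity), le_div_iff₀ he]
    have h2 : Real.exp (j ^ 4) * ep n = Real.exp (- j ^ 4) := by
      unfold ep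
      rw [← Real.exp_add]
      congr 1
      ring
    rw [h2]
    have h3 : Real.exp (- j ^ 4) ≤ 1 / 2 := by
      have h4 : Real.exp (- j ^ 4) ≤ Real.exp (-1) := Real.exp_le_exp.2 (by linarith)
      have h5 : Real.exp (-1) ≤ 1/2 := by
        rw [Real.exp_neg]
        have := Real.add_one_le_exp (1:ℝ)
        rw [inv_le_comm₀ (Real.exp_pos _) (by norm_num)]
        linarith
      linarith
    linarith
  have hm : mm n = 1 / (3 * j ^ 3) := rfl
  calc j / 3 = mm n * j ^ 4 := by rw [hm]; field_simp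
    _ ≤ _ := by have := mm_pos n; gcongr

end Pool.Agent.Helper67.Bump
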