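import Pool.Agent.Helper67.Bump3

set_option autoImplicit false
open MeasureTheory Set Filter
open scoped ENNReal Topology

namespace Pool.Agent.Helper67.Bump

lemma half_cancel (U V : ℝ≥0∞) (hV0 : V ≠ 0) (hV : V ≠ ⊤) :
    (U / V) ^ (1/2 : ℝ) * V ^ (1/2 : ℝ) = U ^ (1/2 : ℝ) := by
  rw [← ENNReal.mul_rpow_of_nonneg _ _ (by norm_num), ENNReal.div_mul_cancel hV0 hV]

lemma bump_general (a : Fin 2 → ℝ) (s : ℝ) (hs : 0 < s) :
    sInf ((fun l : ℝ => ENNReal.ofReal l) ''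
          {l : ℝ | 0 < l ∧ ∫⁻ x in Cube a s, ENNReal.ofReal (Phi (ww x ^ (1/2 : ℝ) / l)) ≤ volume (Cube a s)})
        * ((∫⁻ x in Cube a s, ENNReal.ofReal (ww x)) / volume (Cube a s)) ^ (1/2 : ℝ)
        * volume (Cube a s) ^ (1/2 : ℝ) ≤ 1 := by
  obtain ⟨l, hl, h1, h2⟩ := exists_l a s hs
  have hV : volume (Cube a s) = ENNReal.ofReal (s ^ 2) := Cube_volume a s hs
  have hV0 : volume (Cube a s) ≠ 0 := by
    rw [hV]; simp; positivity
  have hVt : volume (Cube a s) ≠ ⊤ := by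
    rw [hV]; exact ENNReal.ofReal_ne_top
  rw [mul_assoc, half_cancel _ _ hV0 hVt]
  refine le_trans ?_ h2
  gcongr
  apply sInf_le
  exact ⟨l, ⟨hl, h1⟩, rfl⟩

lemma bump_product (a : Fin 2 → ℝ) (s : ℝ) (hs : 0 < s) :
    sInf ((fun l : ℝ => ENNReal.ofReal l) ''
          {l : ℝ | 0 < l ∧ ∫⁻ x in Set.univ.pi (fun i => Set.Ico (a i) (a i + s)),
              ENNReal.ofReal (Phi (ww x ^ (1 - 1 / (2:ℝ)) / l)) ≤
              volume (Set.univ.pi (fun i => Set.Ico (a i) (a i + s)))})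
        * ((∫⁻ x in Set.univ.pi (fun i => Set.Ico (a i) (a i + s)), ENNReal.ofReal (ww x)) /
            volume (Set.univ.pi (fun i => Set.Ico (a i) (a i + s)))) ^ (1 / (2:ℝ))
        * volume (Set.univ.pi (fun i => Set.Ico (a i) (a i + s))) ^ ((1:ℝ) / ((2:ℕ) : ℝ)) ≤ 1 := by
  have h := bump_general a s hs
  have e : (1 : ℝ) - 1 / 2 = 1 / 2 := by norm_num
  have e2 : ((1:ℝ) / ((2:ℕ) : ℝ)) = 1 / 2 := by norm_num
  rw [e, e2]
  exact h

lemma bump_product' (a : Fin 2 → ℝ) (s : ℝ) (hs : 0 < s) :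
    ((∫⁻ x in Set.univ.pi (fun i => Set.Ico (a i) (a i + s)), ENNReal.ofReal (ww x)) /
            volume (Set.univ.pi (fun i => Set.Ico (a i) (a i + s)))) ^ (1 - 1 / (2:ℝ))
        * sInf ((fun l : ℝ => ENNReal.ofReal l) ''
          {l : ℝ | 0 < l ∧ ∫⁻ x in Set.univ.pi (fun i => Set.Ico (a i) (a i + s)),
              ENNReal.ofReal (Phi (ww x ^ (1 / (2:ℝ)) / l)) ≤
              volume (Set.univ.pi (fun i => Set.Ico (a i) (a i + s)))})
        * volume (Set.univ.pi (fun i => Set.Ico (a i) (a i + s))) ^ ((1:ℝ) / ((2:ℕ) : ℝ)) ≤ 1 := by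
  have h := bump_general a s hs
  have e : (1 : ℝ) - 1 / 2 = 1 / 2 := by norm_num
  have e2 : ((1:ℝ) / ((2:ℕ) : ℝ)) = 1 / 2 := by norm_num
  rw [e, e2]
  rw [mul_comm (((∫⁻ x in Set.univ.pi (fun i => Set.Ico (a i) (a i + s)), ENNReal.ofReal (ww x)) /
            volume (Set.univ.pi (fun i => Set.Ico (a i) (a i + s)))) ^ (1 / 2 : ℝ))]
  exact h

lemma no_bound (C : ℝ) (hC : ∀ f : (Fin 2 → ℝ) → ℝ≥0∞, Measurable f →
      ∫⁻ x, (∫⁻ y, f y * ENNReal.ofReal (ww y) *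
          ENNReal.ofReal (Real.sqrt (∑ i, (x i - y i) ^ 2) ^ ((1:ℝ) - ((2:ℕ) : ℝ)))) ^ (2:ℝ)
          * ENNReal.ofReal (ww x)
        ≤ ENNReal.ofReal C * ∫⁻ y, f y ^ (2:ℝ) * ENNReal.ofReal (ww y)) : False := by
  have key : ∀ n : ℕ, (((n:ℝ) + 1) / 3) ^ 2 ≤ max C 0 := by
    intro n
    have h := hC ((RR n).indicator (fun _ => 1)) (measurable_const.indicator (RR_measurable n))
    have hR : ∫⁻ y, ((RR n).indicator (fun _ => (1:ℝ≥0∞)) y) ^ (2:ℝ) * ENNReal.ofReal (ww y) =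
        ENNReal.ofReal (cc n) * ENNReal.ofReal (ep n) := by
      have : ∀ y, ((RR n).indicator (fun _ => (1:ℝ≥0∞)) y) ^ (2:ℝ) * ENNReal.ofReal (ww y) =
          (RR n).indicator (fun _ => ENNReal.ofReal (cc n)) y := by
        intro y
        by_cases hy : y ∈ RR n
        · simp [hy, ww_of_mem hy]
        · simp [hy]
      simp_rw [this]
      rw [lintegral_indicator_const (RR_measurable n), RR_volume]
    rw [hR] at h
    set L : ℝ := mm n * Real.log ((1/2 + ep n) / ep n) with hL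
    have hLlow := mm_log_lower n
    have hL0 : 0 ≤ L := le_trans (by positivity) hLlow
    have hlow : ENNReal.ofReal L ^ (2:ℝ) * (ENNReal.ofReal (cc n) * ENNReal.ofReal (ep n)) ≤
        ∫⁻ x, (∫⁻ y, (RR n).indicator (fun _ => (1:ℝ≥0∞)) y * ENNReal.ofReal (ww y) *
          ENNReal.ofReal (Real.sqrt (∑ i, (x i - y i) ^ 2) ^ ((1:ℝ) - ((2:ℕ) : ℝ)))) ^ (2:ℝ)
          * ENNReal.ofReal (ww x) := by
      have e1 : ENNReal.ofReal L ^ (2:ℝ) * (ENNReal.ofReal (cc n) * ENNReal.ofReal (ep n)) =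
          ∫⁻ x, (RR n).indicator (fun _ => ENNReal.ofReal L ^ (2:ℝ) * ENNReal.ofReal (cc n)) x := by
        rw [lintegral_indicator_const (RR_measurable n), RR_volume, mul_assoc]
      rw [e1]
      apply lintegral_mono
      intro x
      by_cases hx : x ∈ RR n
      · simp only [hx, indicator_of_mem, ww_of_mem hx]
        gcongr
        exact potential_lower n x hx
      · simp [hx]
    have h2 := hlow.trans h
    have hce : ENNReal.ofReal (cc n) * ENNReal.ofReal (ep n) = ENNReal.ofReal (mm n) := by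
      rw [← ENNReal.ofReal_mul (cc_pos n).le, cc_mul_ep]
    rw [hce] at h2
    have hm := mm_pos n
    have h3 : ENNReal.ofReal L ^ (2:ℝ) ≤ ENNReal.ofReal C := by
      have hne : ENNReal.ofReal (mm n) ≠ 0 := by simpa using hm
      exact (ENNReal.mul_le_mul_iff_left hne ENNReal.ofReal_ne_top).1 h2
    rw [ENNReal.ofReal_rpow_of_nonneg hL0 (by norm_num), Real.rpow_two] at h3
    have h4 : L ^ 2 ≤ max C 0 := by
      have h5 : ENNReal.ofReal (L ^ 2) ≤ ENNReal.ofReal (max C 0) := h3.trans (ENNReal.ofReal_le_ofReal (le_max_left _ _))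
      exact (ENNReal.ofReal_le_ofReal_iff (le_max_right _ _)).1 h5
    refine le_trans ?_ h4
    gcongr
  obtain ⟨n, hn⟩ := exists_nat_gt (3 * (max C 0 + 1))
  have h := key n
  have hM : 0 ≤ max C 0 := le_max_right _ _
  have h1 : max C 0 + 1 < ((n:ℝ) + 1) / 3 := by linarith
  nlinarith

end Pool.Agent.Helper67.Bump
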